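import Pool.Agent.N65.GP.Defs2

set_option autoImplicit false

/-! `ST`: from a relation near one point to the kernels (helper252, for project GP of helper65) -/

namespace Pool.Agent.N252.GP2

open Complex Polynomial Pool.Agent.N65.GP

theorem bdd_of_periodic {f : ℝ → ℂ} (hf : Continuous f) (hp : ∀ t, f (t + 1) = f t) : ∃ B : ℝ, ∀ t, ‖f t‖ < B := by
  have h1 : IsCompact (Set.range f) :=
    Function.Periodic.compact_of_continuous (f := f) (c := 1) hp one_ne_zero hf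
  obtain ⟨B, hB⟩ := h1.isBounded.exists_norm_le
  exact ⟨B + 1, fun t => lt_of_le_of_lt (hB _ ⟨t, rfl⟩) (by linarith)⟩

theorem bdd_loop (γ : Loop) : ∃ B : ℝ, 0 < B ∧ ∀ t, ‖γ.x t‖ < B ∧ ‖γ.y t‖ < B := by
  obtain ⟨B1, h1⟩ := bdd_of_periodic γ.hx.continuous γ.px
  obtain ⟨B2, h2⟩ := bdd_of_periodic γ.hy.continuous γ.py
  have h0 : 0 < B1 := lt_of_le_of_lt (norm_nonneg _) (h1 0)
  exact ⟨max B1 B2, lt_max_of_lt_left h0, fun t =>
    ⟨(h1 t).trans_le (le_max_left _ _), (h2 t).trans_le (le_max_right _ _)⟩⟩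

theorem bdd_family {n : ℕ} (δ : Fin n → Loop) : ∃ B : ℝ, 0 ≤ B ∧ ∀ i t, ‖(δ i).x t‖ ≤ B ∧ ‖(δ i).y t‖ ≤ B := by
  choose B hB0 hB using fun i => bdd_loop (δ i)
  refine ⟨∑ i, B i, Finset.sum_nonneg fun i _ => (hB0 i).le, fun i t => ?_⟩
  have h1 : B i ≤ ∑ j, B j := Finset.single_le_sum (f := B) (fun j _ => (hB0 j).le) (Finset.mem_univ i)
  exact ⟨(hB i t).1.le.trans h1, (hB i t).2.le.trans h1⟩

/-- the branches `xb_i (m)` are large for large `m` -/
theorem xb_large {k : Subfield ℂ} {C : Crv k} {R : ℝ} (b : Br C R) :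
    ∃ RX : ℝ, ∀ m, RX < ‖m‖ → ∀ i, R < ‖b.xb i m‖ := by
  have h1 : ∀ i, ∀ᶠ m in Bornology.cobounded ℂ, R < ‖b.xb i m‖ := by
    intro i
    have h2 : Filter.Tendsto (fun m => ‖b.xb i m / m‖ * ‖m‖) (Bornology.cobounded ℂ) Filter.atTop := by
      refine Filter.Tendsto.pos_mul_atTop (C := ‖(C.α i)⁻¹‖) ?_ (b.limX i).norm tendsto_norm_cobounded_atTop
      exact norm_pos_iff.2 (inv_ne_zero (C.ne i))
    have h3 := h2.eventually (Filter.eventually_gt_atTop R)
    have h4 : ∀ᶠ m in Bornology.cobounded ℂ, m ≠ (0 : ℂ) := Bornology.eventually_ne_cobounded 0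
    filter_upwards [h3, h4] with m hm hm0
    rw [norm_div, div_mul_cancel₀ _ (norm_ne_zero_iff.2 hm0)] at hm
    exact hm
  have h2 : ∀ᶠ m in Bornology.cobounded ℂ, ∀ i, R < ‖b.xb i m‖ := Filter.eventually_all.2 h1
  obtain ⟨RX, _, hRX⟩ := Filter.hasBasis_cobounded_norm.mem_iff.1 h2
  exact ⟨RX, fun m hm i => hRX (show RX ≤ ‖m‖ from hm.le) i⟩

theorem t_ST (hH : S_H) (hHD : S_HD) (hSG : S_SG) (hJI : S_JI) (hIM : S_IM) : S_ST := by
  intro k hk C R b ρ δ hρ hδ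
  obtain ⟨RJ, hRJ⟩ := hJI k C R b ρ δ hρ hδ
  obtain ⟨B, hB0, hB⟩ := bdd_family δ
  obtain ⟨RX, hRX⟩ := xb_large b
  set R2 : ℝ := max (max R RJ) (max (B + 1) RX) with hR2
  have hR2a : R ≤ R2 := (le_max_left _ _).trans (le_max_left _ _)
  have hR2b : RJ ≤ R2 := (le_max_right _ _).trans (le_max_left _ _)
  have hR2c : B < R2 := lt_of_lt_of_le (by linarith) ((le_max_left (B + 1) RX).trans (le_max_right _ _))
  have hR2d : RX ≤ R2 := (le_max_right (B + 1) RX).trans (le_max_right _ _)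
  refine ⟨R2, hR2a, ?_⟩
  intro d γ hBd m hm c₀ ε hε hball s β v τ hrel
  have hm1 : R < ‖m‖ := hR2a.trans_lt hm
  have hreg : ∀ c : ℂ, R < ‖c‖ → ∀ l, (γ l).reg m c = ((γ l).int (ker m c)).im := by
    intro c hc l
    exact hH (γ l) m c (fun t => (hBd l t).2.trans hm1) (fun t => (hBd l t).1.trans hc)
  set H : ℂ → ℂ := fun c => ∑ l, (s l : ℂ) * (γ l).int (ker m c) with hHdef
  have hHim : ∀ c : ℂ, R < ‖c‖ → (H c).im = ∑ l, s l * (γ l).reg m c := by
    intro c hc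
    rw [hHdef]
    simp only [Complex.im_sum, Complex.im_ofReal_mul]
    exact Finset.sum_congr rfl fun l _ => by rw [hreg c hc l]
  have hHdiff : DifferentiableOn ℂ H {c | R < ‖c‖} := by
    refine DifferentiableOn.fun_sum fun l _ => ?_
    exact ((hHD (γ l) R (hBd l)).1 m hm1).const_mul _
  -- the relation on the ball
  have hsub : Metric.ball c₀ ε ⊆ {c : ℂ | R < ‖c‖} := fun c hc => (hball c hc).1
  have hyne : ∀ c ∈ Metric.ball c₀ ε, ∀ i, b.yb i c - m ≠ 0 := by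
    intro c hc i h0
    exact (hball c hc).2 ((b.rootY c (hball c hc).1 m).2 ⟨i, (sub_eq_zero.1 h0).symm⟩)
  have hxne : ∀ c ∈ Metric.ball c₀ ε, ∀ i, b.xb i m - c ≠ 0 := by
    intro c hc i h0
    exact (hball c hc).2 ((b.rootX m hm1 c).2 ⟨i, (sub_eq_zero.1 h0).symm⟩)
  have heq : Set.EqOn (fun c => (H c).im)
      (fun c => ∑ i, β i * Real.log ‖b.yb i c - m‖ + ∑ i, v i * Real.log ‖b.xb i m - c‖ + τ)
      (Metric.ball c₀ ε) := by
    refine Set.EqOn.of_subset_closure (s := Metric.ball c₀ ε ∩ (k : Set ℂ)) ?_ ?_ ?_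
      Set.inter_subset_left (hk.open_subset_closure_inter Metric.isOpen_ball)
    · intro c hc
      show (H c).im = _
      rw [hHim c (hball c hc.1).1]
      exact hrel c hc.2 hc.1
    · exact Complex.continuous_im.comp_continuousOn (hHdiff.continuousOn.mono hsub)
    · refine ContinuousOn.add (ContinuousOn.add ?_ ?_) continuousOn_const
      · refine continuousOn_finsetSum _ fun i _ => continuousOn_const.mul ?_
        refine ContinuousOn.log ?_ fun c hc => norm_ne_zero_iff.2 (hyne c hc i)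
        exact (((b.diffY i).continuousOn.mono hsub).sub continuousOn_const).norm
      · refine continuousOn_finsetSum _ fun i _ => continuousOn_const.mul ?_
        refine ContinuousOn.log ?_ fun c hc => norm_ne_zero_iff.2 (hxne c hc i)
        exact (continuousOn_const.sub continuousOn_id).norm
  obtain ⟨hv, hform⟩ := hSG k C R b m hm1 (hRX m (hR2d.trans_lt hm)) H hHdiff c₀ ε β v τ hε
    fun c hc => ⟨(hball c hc).1, (hball c hc).2, heq hc⟩
  refine ⟨hv, ?_⟩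
  -- the family
  set Γ : Fin d ⊕ Fin C.n → Loop := Sum.elim γ δ with hΓ
  set w : Fin d ⊕ Fin C.n → ℝ := Sum.elim s (fun i => β i / (2 * Real.pi)) with hw
  have hBdΓ : Bd Γ R2 := by
    intro l t
    rcases l with l | i
    · exact ⟨(hBd l t).1.trans_le hR2a, (hBd l t).2.trans_le hR2a⟩
    · exact ⟨(hB i t).1.trans_lt hR2c, (hB i t).2.trans_lt hR2c⟩
  have hsum : ∀ g : ℂ → ℂ → ℂ, ∑ l, (w l : ℂ) * (Γ l).int g =
      ∑ l, (s l : ℂ) * (γ l).int g + ∑ i, ((β i / (2 * Real.pi) : ℝ) : ℂ) * (δ i).int g := by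
    intro g
    rw [Fintype.sum_sum_type]
    rfl
  set κ : ℝ := ∑ i, β i * Real.log ‖C.α i‖ + τ with hκ
  have him : ∀ c : ℂ, R2 < ‖c‖ → C.F c m ≠ 0 →
      (∑ l, (w l : ℂ) * (Γ l).int (ker m c)).im = κ := by
    intro c hc hF
    have hc1 : R < ‖c‖ := hR2a.trans_lt hc
    have h1 := hform c hc1 hF
    have h2 := hRJ m c (hR2b.trans_lt hm) (hR2b.trans_lt hc) hF
    rw [hsum, Complex.add_im]
    have h3 : (∑ l, (s l : ℂ) * (γ l).int (ker m c)).im = (H c).im := rfl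
    rw [h3, h1, Complex.im_sum]
    simp only [Complex.im_ofReal_mul]
    rw [hκ]
    have h5 : ∑ i, β i * (Real.log ‖b.yb i c - m‖ - Real.log ‖b.xb i m - c‖) =
        ∑ i, β i * Real.log ‖C.α i‖ - ∑ i, β i / (2 * Real.pi) * ((δ i).int (ker m c)).im := by
      rw [← Finset.sum_sub_distrib]
      refine Finset.sum_congr rfl fun i _ => ?_
      rw [h2 i]
      ring
    rw [h5]
    ring
  intro c hc
  rw [← hsum]
  refine hIM (Fin d ⊕ Fin C.n) Γ w m R2 κ (Set.range fun i => b.xb i m) (Set.finite_range _) hm hBdΓ ?_ c hc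
  intro c' hc' hZ
  refine him c' hc' fun h0 => hZ ?_
  obtain ⟨i, hi⟩ := (b.rootX m hm1 c').1 h0
  exact ⟨i, hi.symm⟩

end Pool.Agent.N252.GP2
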